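import Mathlib

open Cardinal

universe u

namespace Pool.Agent.Results.MP_453038_al.SubindexTwo

/-- The product `A B` is direct: each element of `A B` has exactly one representation. -/
def IsDirect {G : Type u} [Group G] (A B : Set G) : Prop :=
  ∀ a ∈ A, ∀ a' ∈ A, ∀ b ∈ B, ∀ b' ∈ B, a * b = a' * b' → a = a' ∧ b = b'

/-- A right subfactor related to `A`: maximal among the sets `B` with `A B` direct. -/
def IsSubfactor {G : Type u} [Group G] (A B : Set G) : Prop := Maximal (IsDirect A) B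

/-- The right upper subindex. -/
noncomputable def upperSubindex {G : Type u} [Group G] (A : Set G) : Cardinal.{u} :=
  sSup {c | ∃ B : Set G, IsSubfactor A B ∧ #B = c}

/-- The right lower subindex. -/
noncomputable def lowerSubindex {G : Type u} [Group G] (A : Set G) : Cardinal.{u} :=
  sInf {c | ∃ B : Set G, IsSubfactor A B ∧ #B = c}

section
variable {F : Type u} [Field F] [CharZero F] [IsAlgClosed F]

/-- The set of points on two curves. -/
def A0 (F : Type u) [Field F] : Set (F × F × ZMod 2) :=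
  {p | (p.2.2 = 0 ∧ p.1 = p.2.1 ^ 2) ∨ (p.2.2 = 1 ∧ p.2.1 ≠ 0 ∧ p.1 = p.2.1 ^ 2 + p.2.1 ^ 3)}

/-- The complement of the difference set. -/
def C0 (F : Type u) [Field F] : Set (F × F × ZMod 2) :=
  {p | p.2.1 = 0 ∧ ((p.2.2 = 0 ∧ p.1 ≠ 0) ∨ (p.2.2 = 1 ∧ p.1 = 0))}

omit [CharZero F] [IsAlgClosed F] in
lemma diff_not_mem {a a' : F × F × ZMod 2} (ha : a ∈ A0 F) (ha' : a' ∈ A0 F) :
    a - a' ∉ C0 F := by
  obtain ⟨h, k, e⟩ := a
  obtain ⟨h', k', e'⟩ := a'
  rintro ⟨h1, h2⟩
  simp only [Prod.mk_sub_mk, sub_eq_zero] at h1 h2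
  subst h1
  simp only [A0, Set.mem_ofPred_eq] at ha ha'
  rcases ha with ⟨rfl, rfl⟩ | ⟨rfl, hk, rfl⟩ <;> rcases ha' with ⟨rfl, rfl⟩ | ⟨rfl, hk', rfl⟩ <;>
    simp_all

lemma exists_diff {g : F × F × ZMod 2} (hg : g ∉ C0 F) : ∃ a ∈ A0 F, a + g ∈ A0 F := by
  obtain ⟨h, k, e⟩ := g
  have he : e = 0 ∨ e = 1 := (by decide : ∀ e : ZMod 2, e = 0 ∨ e = 1) e
  simp only [C0, Set.mem_ofPred_eq, not_and, not_or] at hg
  rcases he with rfl | rfl
  · by_cases hk : k = 0
    · have := (hg hk).1 rfl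
      push Not at this
      exact ⟨0, Or.inl (by simp), Or.inl (by simp [hk, this])⟩
    · refine ⟨(((h - k ^ 2) / (2 * k)) ^ 2, (h - k ^ 2) / (2 * k), 0), Or.inl ⟨rfl, rfl⟩,
        Or.inl ⟨by simp, ?_⟩⟩
      simp only [Prod.mk_add_mk]
      field_simp; ring
  · have : ∃ x : F, x ≠ 0 ∧ x ^ 3 + h = 2 * x * k + k ^ 2 := by
      by_cases hh : h = k ^ 2
      · have hk : k ≠ 0 := fun hk => (hg hk).2 rfl (by simp [hh, hk])
        obtain ⟨x, hx⟩ := IsAlgClosed.exists_pow_nat_eq (2 * k) (n := 2) (by norm_num)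
        refine ⟨x, fun h0 => hk ?_, by rw [hh]; linear_combination x * hx⟩
        rw [h0] at hx; simpa using hx.symm
      · open Polynomial in
        obtain ⟨x, hx⟩ := IsAlgClosed.exists_root (X ^ 3 - C (2 * k) * X + C (h - k ^ 2) : F[X])
          (by
            have : (X ^ 3 - C (2 * k) * X + C (h - k ^ 2) : F[X]).degree = 3 := by compute_degree!
            rw [this]; norm_num)
        simp only [Polynomial.IsRoot, Polynomial.eval_add, Polynomial.eval_sub,
          Polynomial.eval_pow, Polynomial.eval_X, Polynomial.eval_mul, Polynomial.eval_C] at hx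
        refine ⟨x, fun h0 => hh ?_, by linear_combination hx⟩
        rw [h0] at hx; linear_combination hx
    obtain ⟨x, hx0, hx⟩ := this
    refine ⟨(x ^ 2 + x ^ 3, x, 1), Or.inr ⟨rfl, hx0, rfl⟩, Or.inl ⟨rfl, ?_⟩⟩
    simp only [Prod.mk_add_mk]
    linear_combination hx

lemma direct_iff {N : Type} [Group N] (B : Set (Multiplicative (F × F × ZMod 2) × N)) :
    IsDirect {a | a.1.toAdd ∈ A0 F} B ↔
      ∀ b ∈ B, ∀ b' ∈ B, b ≠ b' → b.1.toAdd - b'.1.toAdd ∈ C0 F := by
  constructor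
  · intro h b hb b' hb' hne
    by_contra hC
    obtain ⟨a, ha, ha'⟩ := exists_diff hC
    refine hne (h (Multiplicative.ofAdd a, 1) ha
      ((Multiplicative.ofAdd a, 1) * b * b'⁻¹) ?_ b hb b' hb' (by simp)).2
    simpa [sub_eq_add_neg, add_assoc] using ha'
  · intro h a ha a' ha' b hb b' hb' hab
    have : b = b' := by
      by_contra hne
      have h1 := h b hb b' hb' hne
      have h2 : a.1.toAdd + b.1.toAdd = a'.1.toAdd + b'.1.toAdd :=
        congrArg (fun z => z.1.toAdd) hab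
      have h3 : b.1.toAdd - b'.1.toAdd = a'.1.toAdd - a.1.toAdd := by
        rw [sub_eq_sub_iff_add_eq_add, add_comm, h2]
      rw [h3] at h1
      exact diff_not_mem ha' ha h1
    subst this
    exact ⟨mul_right_cancel hab, rfl⟩

lemma main (N : Type) [Group N] [Finite N] :
    lowerSubindex {a : Multiplicative (F × F × ZMod 2) × N | a.1.toAdd ∈ A0 F} = 2 ∧
      upperSubindex {a : Multiplicative (F × F × ZMod 2) × N | a.1.toAdd ∈ A0 F} = #F := by
  let c : Multiplicative (F × F × ZMod 2) × N := (Multiplicative.ofAdd (0, 0, 1), 1)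
  have hpair : ∀ b, IsDirect {a : Multiplicative (F × F × ZMod 2) × N | a.1.toAdd ∈ A0 F}
      {b, c * b} := by
    intro b
    rw [direct_iff]
    rintro x (rfl | rfl) y (rfl | rfl) hne
    · exact absurd rfl hne
    · simp [C0, c]
    · simp [C0, c]
    · exact absurd rfl hne
  have hcb : ∀ b, b ≠ c * b := fun b h => by
    have := congrArg (fun z => z.1.toAdd.2.2) h
    simp [c] at this
  constructor
  · refine IsLeast.csInf_eq ⟨⟨{1, c * 1}, ⟨hpair 1, fun B hB hle b hb => ?_⟩, ?_⟩, ?_⟩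
    · by_contra hn
      simp only [Set.mem_insert_iff, Set.mem_singleton_iff, not_or] at hn
      rw [direct_iff] at hB
      have h1 := hB b hb 1 (hle (by simp)) hn.1
      have h2 := hB b hb (c * 1) (hle (by simp)) hn.2
      simp only [C0, c, Set.mem_ofPred_eq] at h1 h2
      rcases h1 with ⟨-, ⟨h3, h4⟩ | ⟨h3, h4⟩⟩ <;> rcases h2 with ⟨-, ⟨h5, h6⟩ | ⟨h5, h6⟩⟩ <;>
        simp_all
    · rw [Cardinal.mk_insert (by simpa using hcb 1), Cardinal.mk_singleton]; norm_num
    · rintro _ ⟨B, hB, rfl⟩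
      by_contra hlt
      have hs : B.Subsingleton := by
        rw [← Cardinal.mk_le_one_iff_set_subsingleton]
        by_contra h1
        push Not at h1 hlt
        exact absurd (Order.succ_le_of_lt h1) (by
          rw [show Order.succ (1 : Cardinal.{u}) = 2 by
            simpa using (Cardinal.nat_succ 1).symm]
          exact not_le.2 hlt)
      obtain ⟨b, hb⟩ : ∃ b, B ⊆ {b} := by
        rcases hs.eq_empty_or_singleton with h | ⟨b, h⟩
        · exact ⟨1, by simp [h]⟩
        · exact ⟨b, h.le⟩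
      have h1 := hB.2 (hpair b) (hb.trans (by simp))
      exact hcb b (hs (h1 (by simp)) (h1 (by simp)))
  · let ι : F → Multiplicative (F × F × ZMod 2) × N := fun h => (Multiplicative.ofAdd (h, 0, 0), 1)
    have hι : Function.Injective ι := fun x y h => congrArg (fun z => z.1.toAdd.1) h
    refine IsGreatest.csSup_eq ⟨⟨Set.range ι, ⟨?_, fun B hB hle b hb => ?_⟩,
      Cardinal.mk_range_eq ι hι⟩, ?_⟩
    · rw [direct_iff]
      rintro _ ⟨x, rfl⟩ _ ⟨y, rfl⟩ hne
      have : x ≠ y := fun h => hne (by rw [h])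
      simp [C0, ι, sub_eq_zero, this]
    · by_contra hn
      rw [direct_iff] at hB
      have h1 := hB b hb (ι b.1.toAdd.1) (hle ⟨_, rfl⟩) (fun h => hn ⟨_, h.symm⟩)
      have h2 := hB b hb (ι (b.1.toAdd.1 + 1)) (hle ⟨_, rfl⟩) (fun h => hn ⟨_, h.symm⟩)
      simp only [C0, ι, Set.mem_ofPred_eq] at h1 h2
      rcases h1 with ⟨-, ⟨h3, h4⟩ | ⟨h3, h4⟩⟩ <;> rcases h2 with ⟨-, ⟨h5, h6⟩ | ⟨h5, h6⟩⟩ <;>
        simp_all
    · rintro _ ⟨B, -, rfl⟩
      refine (Cardinal.mk_set_le B).trans ?_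
      have hF : ℵ₀ ≤ #F := Cardinal.aleph0_le_mk F
      have h1 : #(Multiplicative (F × F × ZMod 2)) = #(F × F × ZMod 2) := rfl
      have hN : Cardinal.lift.{u} #N ≤ #F := (Cardinal.lift_lt_aleph0.2 (Cardinal.lt_aleph0_of_finite N)).le.trans hF
      have hZ : Cardinal.lift.{u} #(ZMod 2) ≤ #F :=
        (Cardinal.lift_lt_aleph0.2 (Cardinal.lt_aleph0_of_finite _)).le.trans hF
      rw [Cardinal.mk_prod, h1, Cardinal.mk_prod, Cardinal.mk_prod]
      simp only [Cardinal.lift_id, Cardinal.lift_uzero, Cardinal.lift_id']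
      calc #F * (#F * Cardinal.lift.{u} #(ZMod 2)) * Cardinal.lift.{u} #N
          ≤ #F * (#F * #F) * #F := by gcongr
        _ = #F := by simp [Cardinal.mul_eq_self hF]

end

theorem result (α : Cardinal.{u}) (hα : ℵ₀ ≤ α) :
    (∃ (G : Type u) (_ : Group G) (A : Set G), (∀ x y : G, x * y = y * x) ∧
      lowerSubindex A = 2 ∧ upperSubindex A = α) ∧
    (∃ (G : Type u) (_ : Group G) (A : Set G), (∃ x y : G, x * y ≠ y * x) ∧
      lowerSubindex A = 2 ∧ upperSubindex A = α) := by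
  let K := FractionRing (MvPolynomial α.out ℚ)
  let F := AlgebraicClosure K
  have hne : Nonempty α.out := by
    rw [← Cardinal.mk_ne_zero_iff, Cardinal.mk_out]
    exact (Cardinal.aleph0_pos.trans_le hα).ne'
  have hK : #K = α := by
    rw [FractionRing.cardinalMk, MvPolynomial.cardinalMk_eq_max_lift]
    simp [hα]
  have hF : #F = α := by
    apply le_antisymm
    · refine (Algebra.IsAlgebraic.cardinalMk_le_max K F).trans ?_
      rw [hK]; simp [hα]
    · rw [← hK]; exact Cardinal.mk_le_of_injective (algebraMap K F).injective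
  refine ⟨⟨Multiplicative (F × F × ZMod 2) × Unit, inferInstance, _, mul_comm,
    hF ▸ main (F := F) Unit⟩, ⟨Multiplicative (F × F × ZMod 2) × Equiv.Perm (Fin 3), inferInstance,
    _, ⟨(1, Equiv.swap 0 1), (1, Equiv.swap 1 2), fun h => ?_⟩,
    hF ▸ main (F := F) (Equiv.Perm (Fin 3))⟩⟩
  have : Equiv.swap (0 : Fin 3) 1 * Equiv.swap 1 2 = Equiv.swap 1 2 * Equiv.swap 0 1 :=
    congrArg Prod.snd h
  revert this; decide

end Pool.Agent.Results.MP_453038_al.SubindexTwo
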